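import Pool.Agent.MWGN.StmtsB

/-!
# MWGN, row KPR: `xtzxsz ≈ xtxzxsz` implies `kappa`
-/

set_option autoImplicit false

namespace Pool.Agent.MWGN.H60

open Pool.Agent.Helper14_MV Pool.Agent.Helper2_MV
open Pool.Agent.MWK (pre Gw)

variable {β : FIC}

theorem ctx (G R : List ℕ) {l l' : List ℕ} (h : RR β l l') :
    RR β (G ++ (l ++ R)) (G ++ (l' ++ R)) :=
  (RR.refl G).append (h.append (RR.refl R))

theorem gmw (h : RR β [0, 1, 0] [0, 1, 0, 0]) (X u : List ℕ) :
    RR β (X ++ (u ++ X)) (X ++ (u ++ (X ++ X))) := by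
  have := h.sub (fun i => if i = 0 then X else u)
  simpa using this

theorem p0w (h : P0 β) (X t z s : List ℕ) :
    RR β (X ++ (t ++ (z ++ (X ++ (s ++ z))))) (X ++ (t ++ (X ++ (z ++ (X ++ (s ++ z)))))) := by
  have := RR.sub (fun i => if i = 0 then X else if i = 1 then z else if i = 2 then t else s)
    (show RR β _ _ from h)
  simpa using this

theorem cw (h : RR β [0, 0, 1, 1] [1, 1, 0, 0]) (X Y : List ℕ) :
    RR β (X ++ (X ++ (Y ++ Y))) (Y ++ (Y ++ (X ++ X))) := by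
  have := h.sub (fun i => if i = 0 then X else Y)
  simpa using this

theorem kw (h : RR β [0, 1, 2, 0, 1] [1, 0, 2, 0, 1]) (X Y t : List ℕ) :
    RR β (X ++ (Y ++ (t ++ (X ++ Y)))) (Y ++ (X ++ (t ++ (X ++ Y)))) := by
  have := h.sub (fun i => if i = 0 then X else if i = 1 then Y else t)
  simpa using this

/-- the rest from `L j` on -/
def Rr (L C : ℕ → List ℕ) (T : List ℕ) (j n : ℕ) : List ℕ :=
  (List.range' j n).flatMap (fun i => L i ++ (C i ++ C i)) ++ T

theorem Rr_succ (L C : ℕ → List ℕ) (T : List ℕ) (j n : ℕ) :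
    Rr L C T j (n + 1) = L j ++ (C j ++ (C j ++ Rr L C T (j + 1) n)) := by
  simp [Rr, List.range'_succ]

theorem claim (hz : Gz β) (hp : P0 β) (Y B : List ℕ) (S L C : ℕ → List ℕ) (τ : List ℕ) (m : ℕ)
    (hτ : Tau τ m) : ∀ (n j : ℕ), j + n = m → ∀ G H : List ℕ,
      RR β (G ++ (Y ++ (H ++ Rr L C (L m ++ (Y ++ (B ++ τ.flatMap (fun i => S i ++ L i)))) j n)))
        (G ++ (Y ++ (H ++ (Y ++
          Rr L C (L m ++ (Y ++ (B ++ τ.flatMap (fun i => S i ++ L i)))) j n))))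
  | 0, j, e, G, H => by
    have ej : j = m := by omega
    subst ej
    obtain ⟨s, t, hst⟩ := List.append_of_mem ((hτ.2 j).2 le_rfl)
    have h1 := ctx G (t.flatMap (fun i => S i ++ L i))
      (p0w hp Y H (L j) (B ++ (s.flatMap (fun i => S i ++ L i) ++ S j)))
    rw [hst]
    simpa [Rr, List.append_assoc] using h1
  | n + 1, j, e, G, H => by
    have ih := claim hz hp Y B S L C τ m hτ n (j + 1) (by omega)
    obtain ⟨s, t, hst⟩ := List.append_of_mem ((hτ.2 j).2 (by omega))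
    have hT : ∃ U V, Rr L C (L m ++ (Y ++ (B ++ τ.flatMap (fun i => S i ++ L i)))) (j + 1) n =
        U ++ (L j ++ V) := by
      refine ⟨(List.range' (j + 1) n).flatMap (fun i => L i ++ (C i ++ C i)) ++ (L m ++ (Y ++ (B ++
        (s.flatMap (fun i => S i ++ L i) ++ S j)))), t.flatMap (fun i => S i ++ L i), ?_⟩
      rw [hst]
      simp [Rr, List.append_assoc]
    rw [Rr_succ]
    generalize Rr L C (L m ++ (Y ++ (B ++ τ.flatMap (fun i => S i ++ L i)))) (j + 1) n = R at *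
    obtain ⟨U, V, hR⟩ := hT
    generalize C j = c at *
    generalize L j = l at *
    -- a `Y` behind the block
    have h1 : RR β (G ++ (Y ++ (H ++ (l ++ (c ++ (c ++ R))))))
        (G ++ (Y ++ (H ++ (l ++ (c ++ (c ++ (Y ++ R))))))) := by
      have := ih G (H ++ (l ++ (c ++ c)))
      simpa [List.append_assoc] using this
    have h2 : RR β (G ++ (Y ++ (H ++ (l ++ (c ++ (c ++ (Y ++ R)))))))
        (G ++ (Y ++ (H ++ (l ++ (c ++ (c ++ (Y ++ (Y ++ R)))))))) := by
      have := ctx G R (gmw hz.gw.gm Y (H ++ (l ++ (c ++ c))))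
      simpa [List.append_assoc] using this
    have h3 : RR β (G ++ (Y ++ (H ++ (l ++ (c ++ (c ++ (Y ++ (Y ++ R))))))))
        (G ++ (Y ++ (H ++ (l ++ (Y ++ (Y ++ (c ++ (c ++ R)))))))) := by
      have := ctx (G ++ (Y ++ (H ++ l))) R (cw hz.c c Y)
      simpa [List.append_assoc] using this
    have h4 : RR β (G ++ (Y ++ (H ++ (l ++ (Y ++ (c ++ (c ++ R)))))))
        (G ++ (Y ++ (H ++ (l ++ (Y ++ (Y ++ (c ++ (c ++ R)))))))) := by
      have := ctx G (c ++ (c ++ R)) (gmw hz.gw.gm Y (H ++ l))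
      simpa [List.append_assoc] using this
    have h5 : RR β (G ++ (Y ++ (H ++ (l ++ (Y ++ (c ++ (c ++ R)))))))
        (G ++ (Y ++ (H ++ (Y ++ (l ++ (Y ++ (c ++ (c ++ R)))))))) := by
      have := ctx G V (p0w hp Y H l (c ++ (c ++ U)))
      rw [hR]
      simpa [List.append_assoc] using this
    have h6 : RR β (G ++ (Y ++ (H ++ (Y ++ (l ++ (c ++ (c ++ R)))))))
        (G ++ (Y ++ (H ++ (Y ++ (l ++ (c ++ (c ++ (Y ++ R)))))))) := by
      have := ih G (H ++ (Y ++ (l ++ (c ++ c))))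
      simpa [List.append_assoc] using this
    have h7 : RR β (G ++ (Y ++ (H ++ (Y ++ (l ++ (c ++ (c ++ (Y ++ R))))))))
        (G ++ (Y ++ (H ++ (Y ++ (l ++ (c ++ (c ++ (Y ++ (Y ++ R))))))))) := by
      have := ctx G R (gmw hz.gw.gm Y (H ++ (Y ++ (l ++ (c ++ c)))))
      simpa [List.append_assoc] using this
    have h8 : RR β (G ++ (Y ++ (H ++ (Y ++ (l ++ (c ++ (c ++ (Y ++ (Y ++ R)))))))))
        (G ++ (Y ++ (H ++ (Y ++ (l ++ (Y ++ (Y ++ (c ++ (c ++ R))))))))) := by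
      have := ctx (G ++ (Y ++ (H ++ (Y ++ l)))) R (cw hz.c c Y)
      simpa [List.append_assoc] using this
    have h9 : RR β (G ++ (Y ++ (H ++ (Y ++ (l ++ (Y ++ (c ++ (c ++ R))))))))
        (G ++ (Y ++ (H ++ (Y ++ (l ++ (Y ++ (Y ++ (c ++ (c ++ R))))))))) := by
      have := ctx G (c ++ (c ++ R)) (gmw hz.gw.gm Y (H ++ (Y ++ l)))
      simpa [List.append_assoc] using this
    exact β.trans (β.trans (β.trans (β.trans (β.trans h1 h2) h3) h4.symm) h5)
      (β.trans (β.trans (β.trans h9 h8.symm) h7.symm) h6.symm)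

theorem bd_eq (L C : ℕ → List ℕ) (T : List ℕ) (m : ℕ) : bd L C m ++ T = Rr L C T 0 m := by
  simp [bd, Rr, List.range_eq_range']

theorem kpr : KprStmt := by
  intro β hz hp m τ hτ X Y A B S L C
  have e : kr X Y A B S L C τ m = A ++ (X ++ Rr L C (L m ++ (Y ++ (B ++
      τ.flatMap (fun i => S i ++ L i)))) 0 m) := by
    unfold kr
    rw [bd_eq]
  rw [e]
  have h0 := claim hz hp Y B S L C τ m hτ m 0 (by omega)
  generalize Rr L C (L m ++ (Y ++ (B ++ τ.flatMap (fun i => S i ++ L i)))) 0 m = R at *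
  have h1 : RR β (X ++ (Y ++ (A ++ (X ++ R)))) (X ++ (Y ++ (A ++ (X ++ (Y ++ R))))) := by
    have := h0 X (A ++ X)
    simpa [List.append_assoc] using this
  have h2 : RR β (Y ++ (X ++ (A ++ (X ++ R)))) (Y ++ (X ++ (A ++ (X ++ (Y ++ R))))) := by
    have := h0 [] (X ++ (A ++ X))
    simpa [List.append_assoc] using this
  have h3 : RR β (X ++ (Y ++ (A ++ (X ++ (Y ++ R))))) (Y ++ (X ++ (A ++ (X ++ (Y ++ R))))) := by
    have := ctx [] R (kw hz.k X Y A)
    simpa [List.append_assoc] using this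
  exact β.trans (β.trans h1 h3) h2.symm

end Pool.Agent.MWGN.H60
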