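import Pool.Agent.MWGN.StmtsC

/-!
# MWGN, row DSR: the names of a run are different
-/

set_option autoImplicit false

namespace Pool.Agent.MWGN.H60

open Pool.Agent.Helper14_MV Pool.Agent.Helper2_MV
open Pool.Agent.MWK (pre Gw)

theorem dsr : DsrStmt := by
  intro ν τ r hN _ w hR hW
  obtain ⟨hbS, hS⟩ := List.nodup_cons.1 hN
  have cb := hR.sb
  have cx := hR.x2
  have cS := hW.ss
  have cL := hR.l2
  have cC := hR.c2
  -- inequalities
  have hxL : ∀ i ≤ r, ν.x ≠ ν.L i := by
    intro i hi h
    have h1 := hR.xb
    have h2 := hR.lb i hi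
    rw [← h] at h2
    omega
  have hxC : ∀ i < r, ν.x ≠ ν.C i := by
    intro i hi h
    have h1 := hR.x0
    have h2 := hR.cl0 i hi 0 (by omega)
    rw [← h] at h2
    omega
  have hLC : ∀ i ≤ r, ∀ j < r, ν.L i ≠ ν.C j := by
    intro i hi j hj h
    have h1 := hR.lb i hi
    have h2 := hR.cb j hj
    have h3 := cC j hj
    rw [h] at h1
    omega
  have hLL : ∀ i j, i < j → j ≤ r → ν.L i ≠ ν.L j := by
    intro i j hij hj h
    have h1 := hR.cl0 i (by omega) i le_rfl
    have h2 := hR.cl1 i (by omega) j hij hj
    have h3 := cC i (by omega)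
    rw [h] at h1
    omega
  have hCC : ∀ i j, i < j → j < r → ν.C i ≠ ν.C j := by
    intro i j hij hj h
    have h1 := hR.cl1 i (by omega) j hij (by omega)
    have h2 := hR.cl0 j hj j le_rfl
    have h3 := cC i (by omega)
    rw [h] at h1 h3
    omega
  unfold nr
  refine List.nodup_cons.2 ⟨?_, List.nodup_cons.2 ⟨?_, List.nodup_append.2 ⟨hS,
    List.nodup_append.2 ⟨?_, ?_, ?_⟩, ?_⟩⟩⟩
  · simp only [List.mem_cons, List.mem_append, List.mem_map, List.mem_range, not_or, not_exists,
      not_and]
    refine ⟨?_, ?_, ?_, ?_⟩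
    · intro h
      rw [h] at cx
      omega
    · intro i hi h
      have := cS i (by omega)
      rw [h] at this
      omega
    · intro i hi h
      exact hxL i (by omega) h.symm
    · intro i hi h
      exact hxC i hi h.symm
  · simp only [List.mem_append, List.mem_map, List.mem_range, not_or, not_exists,
      not_and]
    refine ⟨?_, ?_, ?_⟩
    · intro i hi h
      exact hbS (List.mem_map.2 ⟨i, List.mem_range.2 hi, h⟩)
    · intro i hi h
      have := cL i (by omega)
      rw [h] at this
      omega
    · intro i hi h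
      have := cC i hi
      rw [h] at this
      omega
  · refine List.Nodup.map_on ?_ List.nodup_range
    intro i hi j hj h
    rw [List.mem_range] at hi hj
    rcases Nat.lt_trichotomy i j with h1 | h1 | h1
    · exact absurd h (hLL i j h1 (by omega))
    · exact h1
    · exact absurd h.symm (hLL j i h1 (by omega))
  · refine List.Nodup.map_on ?_ List.nodup_range
    intro i hi j hj h
    rw [List.mem_range] at hi hj
    rcases Nat.lt_trichotomy i j with h1 | h1 | h1
    · exact absurd h (hCC i j h1 hj)
    · exact h1
    · exact absurd h.symm (hCC j i h1 hi)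
  · intro a ha b hb h
    rw [List.mem_map] at ha hb
    obtain ⟨i, hi, rfl⟩ := ha
    obtain ⟨j, hj, rfl⟩ := hb
    rw [List.mem_range] at hi hj
    exact hLC i (by omega) j hj h
  · intro a ha b hb h
    rw [List.mem_map] at ha
    rw [List.mem_append, List.mem_map, List.mem_map] at hb
    obtain ⟨i, hi, rfl⟩ := ha
    rw [List.mem_range] at hi
    have h1 := cS i (by omega)
    rw [h] at h1
    rcases hb with ⟨j, hj, rfl⟩ | ⟨j, hj, rfl⟩
    · rw [List.mem_range] at hj
      have := cL j (by omega)
      omega
    · rw [List.mem_range] at hj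
      have := cC j hj
      omega

end Pool.Agent.MWGN.H60
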